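import Mathlib
import Pool.Agent.H59.GH1

set_option autoImplicit false

namespace Pool.Agent.Results.MP_c516eb_nt.Majority

/-- The Collatz map. -/
def C (x : ℕ) : ℕ := if x % 2 = 1 then 3 * x + 1 else x / 2

/-- `m` has finite height `k`: `k` is the least number of steps of `C` taking `m` to 1. -/
def HasHeight (m k : ℕ) : Prop := C^[k] m = 1 ∧ ∀ i, i < k → C^[i] m ≠ 1

/-- `n` is paired: finite height, shared with `n - 1` (when `n ≥ 2`) or with `n + 1`. -/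
def Paired (n : ℕ) : Prop :=
  ∃ k, HasHeight n k ∧ ((2 ≤ n ∧ HasHeight (n - 1) k) ∨ HasHeight (n + 1) k)

/-- `n` has infinite height. -/
def InfHeight (n : ℕ) : Prop := ∀ k, C^[k] n ≠ 1

theorem result :
    (∃ K : ℕ, ∀ N : ℕ,
      602 * N ≤ 1024 * {n : ℕ | 1 ≤ n ∧ n ≤ N ∧ (Paired n ∨ InfHeight n)}.ncard + K) ∧
    ((∃ N₀ : ℕ, ∀ N, N₀ ≤ N → 100 * {n : ℕ | 1 ≤ n ∧ n ≤ N ∧ InfHeight n}.ncard ≤ 8 * N) →
      ∃ N₀ : ℕ, ∀ N, N₀ ≤ N → 507 * N ≤ 1000 * {n : ℕ | 1 ≤ n ∧ n ≤ N ∧ Paired n}.ncard) ∧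
    ((∀ n, 1 ≤ n → ∃ k, C^[k] n = 1) →
      ∃ N₀ : ℕ, ∀ N, N₀ ≤ N → 587 * N ≤ 1000 * {n : ℕ | 1 ≤ n ∧ n ≤ N ∧ Paired n}.ncard) := by
  have hA : ∃ K : ℕ, ∀ N : ℕ,
      602 * N ≤ 1024 * {n : ℕ | 1 ≤ n ∧ n ≤ N ∧ (Paired n ∨ InfHeight n)}.ncard + K :=
    Pool.Agent.H59.GH.main
  obtain ⟨K, hK⟩ := hA
  have hU : ∀ N : ℕ, {n : ℕ | 1 ≤ n ∧ n ≤ N ∧ (Paired n ∨ InfHeight n)}.ncard ≤
      {n : ℕ | 1 ≤ n ∧ n ≤ N ∧ Paired n}.ncard + {n : ℕ | 1 ≤ n ∧ n ≤ N ∧ InfHeight n}.ncard := by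
    intro N
    have e : {n : ℕ | 1 ≤ n ∧ n ≤ N ∧ (Paired n ∨ InfHeight n)} =
        {n : ℕ | 1 ≤ n ∧ n ≤ N ∧ Paired n} ∪ {n : ℕ | 1 ≤ n ∧ n ≤ N ∧ InfHeight n} := by
      ext n
      simp only [Set.mem_union, Set.mem_ofPred_eq]
      tauto
    rw [e]
    exact Set.ncard_union_le _ _
  refine ⟨⟨K, hK⟩, ?_, ?_⟩
  · rintro ⟨N₀, h⟩
    refine ⟨N₀ + 2 * K, fun N hN => ?_⟩
    have h1 := hK N
    have h2 := hU N
    have h3 := h N (by omega)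
    omega
  · intro h
    refine ⟨2 * K, fun N hN => ?_⟩
    have h1 := hK N
    have h2 := hU N
    have e : {n : ℕ | 1 ≤ n ∧ n ≤ N ∧ InfHeight n} = ∅ := by
      ext n
      simp only [Set.mem_ofPred_eq, Set.mem_empty_iff_false, iff_false]
      rintro ⟨h4, _, h5⟩
      obtain ⟨k, hk⟩ := h n h4
      exact h5 k hk
    rw [e, Set.ncard_empty] at h2
    omega

end Pool.Agent.Results.MP_c516eb_nt.Majority
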